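import Pool.Agent.Q62.CC.Stm

set_option autoImplicit false

/-!
# Project CC (helper62), job INJ (helper299)
-/

open Set Filter Topology MeasureTheory
open scoped ENNReal ContDiff

namespace Pool.Agent.Q299.CC

open Pool.Agent.Q62.CC
open Pool.Agent.Q61.NC (IsJet Bd mulJ Good sh Sp pd StopsIn)

theorem t_INJ : S_INJ := by
  intro α β h hab hint hzero
  have hba : 0 < β - α := by linarith
  have hI : IntervalIntegrable h volume α β :=
    (intervalIntegrable_iff_integrableOn_Icc_of_le hab.le).2 hint
  have hP : IntervalIntegrable (fun y => (y - α) * h y) volume α β :=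
    hI.continuousOn_mul (by fun_prop)
  have hQ : IntervalIntegrable (fun y => (β - y) * h y) volume α β :=
    hI.continuousOn_mul (by fun_prop)
  set P : ℝ → ℝ := fun x => ∫ y in α..x, (y - α) * h y with hPdef
  set Q : ℝ → ℝ := fun x => ∫ y in α..x, (β - y) * h y with hQdef
  have hstar : ∀ x ∈ Icc α β, (β - x) * P x + (x - α) * (Q β - Q x) = 0 := by
    intro x hx
    have h0 := hzero x hx
    rw [integral_Icc_eq_integral_Ioc, ← intervalIntegral.integral_of_le hab.le] at h0
    have hG : IntervalIntegrable (fun y => Gr α β x y * h y) volume α β := by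
      refine hI.continuousOn_mul ?_
      unfold Gr
      fun_prop
    have hsub1 : uIcc α x ⊆ uIcc α β := by
      rw [uIcc_of_le hx.1, uIcc_of_le hab.le]
      exact Icc_subset_Icc_right hx.2
    have hsub2 : uIcc x β ⊆ uIcc α β := by
      rw [uIcc_of_le hx.2, uIcc_of_le hab.le]
      exact Icc_subset_Icc_left hx.1
    rw [← intervalIntegral.integral_add_adjacent_intervals (hG.mono_set hsub1)
      (hG.mono_set hsub2)] at h0
    have e1 : ∫ y in α..x, Gr α β x y * h y = (β - x) / (β - α) * P x := by
      rw [hPdef]
      simp only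
      rw [← intervalIntegral.integral_const_mul]
      refine intervalIntegral.integral_congr fun y hy => ?_
      rw [uIcc_of_le hx.1] at hy
      unfold Gr
      rw [min_eq_right hy.2, max_eq_left hy.2]
      ring
    have e2 : ∫ y in x..β, Gr α β x y * h y = (x - α) / (β - α) * (Q β - Q x) := by
      have e3 : Q β - Q x = ∫ y in x..β, (β - y) * h y :=
        intervalIntegral.integral_interval_sub_left hQ (hQ.mono_set hsub1)
      rw [e3, ← intervalIntegral.integral_const_mul]
      refine intervalIntegral.integral_congr fun y hy => ?_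
      rw [uIcc_of_le hx.2] at hy
      unfold Gr
      rw [min_eq_left hy.1, max_eq_right hy.1]
      ring
    rw [e1, e2] at h0
    have h1 : ((β - x) * P x + (x - α) * (Q β - Q x)) / (β - α) = 0 := by
      rw [← h0]
      ring
    rcases div_eq_zero_iff.1 h1 with h2 | h2
    · exact h2
    · exact absurd h2 hba.ne'
  have dP := hP.ae_hasDerivAt_integral
  have dQ := hQ.ae_hasDerivAt_integral
  have hα : α ∈ uIcc α β := left_mem_uIcc
  -- the function P vanishes almost everywhere
  have hP0 : ∀ᵐ x ∂(volume.restrict (Ioo α β)), P x = 0 := by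
    rw [ae_restrict_iff' measurableSet_Ioo]
    filter_upwards [dP, dQ] with x hx1 hx2 hx
    have hxu : x ∈ uIcc α β := by
      rw [uIcc_of_le hab.le]
      exact Ioo_subset_Icc_self hx
    have d1 : HasDerivAt P ((x - α) * h x) x := hx1 hxu α hα
    have d2 : HasDerivAt Q ((β - x) * h x) x := hx2 hxu α hα
    have d3 : HasDerivAt (fun x => (β - x) * P x + (x - α) * (Q β - Q x))
        ((0 - 1) * P x + (β - x) * ((x - α) * h x) +
          ((1 - 0) * (Q β - Q x) + (x - α) * (0 - (β - x) * h x))) x :=
      (((hasDerivAt_const x β).sub (hasDerivAt_id x)).mul d1).add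
        (((hasDerivAt_id x).sub (hasDerivAt_const x α)).mul ((hasDerivAt_const x (Q β)).sub d2))
    have d4 : HasDerivAt (fun x => (β - x) * P x + (x - α) * (Q β - Q x)) 0 x := by
      refine (hasDerivAt_const x (0 : ℝ)).congr_of_eventuallyEq ?_
      filter_upwards [isOpen_Ioo.mem_nhds hx] with y hy
      exact hstar y (Ioo_subset_Icc_self hy)
    have d5 := d3.unique d4
    have d6 := hstar x (Ioo_subset_Icc_self hx)
    have d7 : Q β - Q x = P x := by linear_combination d5
    rw [d7] at d6
    have d8 : (β - α) * P x = 0 := by linear_combination d6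
    exact (mul_eq_zero.1 d8).resolve_left hba.ne'
  have hPc : ContinuousOn P (Ioo α β) := by
    have := intervalIntegral.continuousOn_primitive_interval' hP hα
    rw [uIcc_of_le hab.le] at this
    exact this.mono Ioo_subset_Icc_self
  have hPE : EqOn P (fun _ => 0) (Ioo α β) :=
    Measure.eqOn_open_of_ae_eq hP0 isOpen_Ioo hPc continuousOn_const
  have hfin : ∀ᵐ x ∂(volume.restrict (Ioo α β)), h x = 0 := by
    rw [ae_restrict_iff' measurableSet_Ioo]
    filter_upwards [dP] with x hx1 hx
    have hxu : x ∈ uIcc α β := by
      rw [uIcc_of_le hab.le]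
      exact Ioo_subset_Icc_self hx
    have d1 : HasDerivAt P ((x - α) * h x) x := hx1 hxu α hα
    have d2 : HasDerivAt P 0 x := by
      refine (hasDerivAt_const x (0 : ℝ)).congr_of_eventuallyEq ?_
      filter_upwards [isOpen_Ioo.mem_nhds hx] with y hy
      exact hPE hy
    have d3 := d1.unique d2
    exact (mul_eq_zero.1 d3).resolve_left (by have := hx.1; linarith)
  rwa [← restrict_Ioo_eq_restrict_Icc]

end Pool.Agent.Q299.CC
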