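import Pool.Agent.Q62.CC.Stm

set_option autoImplicit false

/-!
# Project CC (helper62), job SRB (helper299)
-/

open Set Filter Topology MeasureTheory
open scoped ENNReal ContDiff

namespace Pool.Agent.Q299.CC

open Pool.Agent.Q62.CC
open Pool.Agent.Q61.NC (IsJet Bd mulJ Good sh Sp pd StopsIn)

/-- the derivative of `SQ`, without a point of the interval -/
theorem dSQ (hp1 : S_SRA) {κ : ℕ → ℝ} {D K : ℝ} (hD : 0 ≤ D) (hK : 0 < K)
    (hk : ∀ k, |κ k| ≤ D * K ^ k / ((2 * k).factorial : ℝ)) {Z : ℕ → ℝ → ℝ} (hZ : Good (√K) Z)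
    {t : ℝ} (ht : 0 < t) : HasDerivAt (SQ κ Z) (SQ κ (sh Z) t) t := by
  have hF : Fam (fun _ => 0) 0 1 0 0 (fun _ _ => 0) (fun _ _ => 0) κ D K :=
    { hD := hD
      hK := hK
      dv := fun k x _ => hasDerivAt_const x 0
      dw0 := fun x _ => by
        rw [zero_mul]
        exact hasDerivAt_const x 0
      dw := fun k x _ => by
        rw [zero_mul]
        exact hasDerivAt_const x 0
      va := fun k => rfl
      vb := fun k => rfl
      bv := fun k x _ => by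
        rw [abs_zero]
        positivity
      bw := fun k x _ => by
        rw [abs_zero]
        positivity
      bk := hk }
  exact (hp1 (fun _ => 0) 0 1 0 0 0 (fun _ _ => 0) (fun _ _ => 0) κ D K
    (fun x _ => by rw [abs_zero]) hF Z hZ t (1 / 2) ht ⟨by norm_num, by norm_num⟩).2.2

theorem t_SRB (hp1 : S_SRA) : S_SRB := by
  intro m x₀ x₁ α β M v w κ D K hM hm hF
  have hK : 0 < √K := Real.sqrt_pos.2 hF.hK
  have hU : IsOpen (Ioi (0 : ℝ) ×ˢ Ioo x₀ x₁) := isOpen_Ioi.prod isOpen_Ioo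
  have hQ : ∀ Z : ℕ → ℝ → ℝ, Good (√K) Z → ∀ t : ℝ, 0 < t →
      HasDerivAt (SQ κ Z) (SQ κ (sh Z) t) t := fun Z hZ t ht => dSQ hp1 hF.hD hF.hK hF.bk hZ ht
  have hA : ∀ Z : ℕ → ℝ → ℝ, Good (√K) Z → ∀ q ∈ Ioi (0 : ℝ) ×ˢ Ioo x₀ x₁,
      HasFDerivAt (fun z : ℝ × ℝ => SV v Z z.1 z.2)
      (SV v (sh Z) q.1 q.2 • ContinuousLinearMap.fst ℝ ℝ ℝ +
        SV w Z q.1 q.2 • ContinuousLinearMap.snd ℝ ℝ ℝ) q := fun Z hZ q hq =>
    (hp1 m x₀ x₁ α β M v w κ D K hM hF Z hZ q.1 q.2 hq.1 hq.2).1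
  have hB : ∀ Z : ℕ → ℝ → ℝ, Good (√K) Z → ∀ q ∈ Ioi (0 : ℝ) ×ˢ Ioo x₀ x₁,
      HasFDerivAt (fun z : ℝ × ℝ => SV w Z z.1 z.2)
      (SV w (sh Z) q.1 q.2 • ContinuousLinearMap.fst ℝ ℝ ℝ +
        (m q.2 * (SV v (sh Z) q.1 q.2 - SQ κ Z q.1)) • ContinuousLinearMap.snd ℝ ℝ ℝ) q :=
    fun Z hZ q hq => (hp1 m x₀ x₁ α β M v w κ D K hM hF Z hZ q.1 q.2 hq.1 hq.2).2.1
  have key : ∀ n : ℕ, ∀ Z : ℕ → ℝ → ℝ, Good (√K) Z →
      ContDiffOn ℝ n (fun z : ℝ × ℝ => SV v Z z.1 z.2) (Ioi 0 ×ˢ Ioo x₀ x₁) ∧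
      ContDiffOn ℝ n (fun z : ℝ × ℝ => SV w Z z.1 z.2) (Ioi 0 ×ˢ Ioo x₀ x₁) ∧
      ContDiffOn ℝ n (SQ κ Z) (Ioi 0) := by
    intro n
    induction n with
    | zero =>
      intro Z h
      rw [Nat.cast_zero, contDiffOn_zero, contDiffOn_zero, contDiffOn_zero]
      exact ⟨fun q hq => (hA Z h q hq).continuousAt.continuousWithinAt,
        fun q hq => (hB Z h q hq).continuousAt.continuousWithinAt,
        fun t ht => (hQ Z h t ht).continuousAt.continuousWithinAt⟩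
    | succ n ih =>
      intro Z h
      obtain ⟨i1, i2, i3⟩ := ih Z h
      obtain ⟨i4, i5, i6⟩ := ih (sh Z) (h.shift hK)
      have hd1 : DifferentiableOn ℝ (fun z : ℝ × ℝ => SV v Z z.1 z.2) (Ioi 0 ×ˢ Ioo x₀ x₁) :=
        fun q hq => (hA Z h q hq).differentiableAt.differentiableWithinAt
      have hd2 : DifferentiableOn ℝ (fun z : ℝ × ℝ => SV w Z z.1 z.2) (Ioi 0 ×ˢ Ioo x₀ x₁) :=
        fun q hq => (hB Z h q hq).differentiableAt.differentiableWithinAt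
      have hd3 : DifferentiableOn ℝ (SQ κ Z) (Ioi 0) :=
        fun t ht => (hQ Z h t ht).differentiableAt.differentiableWithinAt
      have hmn : ContDiffOn ℝ n (fun z : ℝ × ℝ => m z.2) (Ioi 0 ×ˢ Ioo x₀ x₁) :=
        (hm.of_le (by exact_mod_cast le_top)).comp contDiff_snd.contDiffOn fun q hq => hq.2
      have hqn : ContDiffOn ℝ n (fun z : ℝ × ℝ => SQ κ Z z.1) (Ioi 0 ×ˢ Ioo x₀ x₁) :=
        i3.comp contDiff_fst.contDiffOn fun q hq => hq.1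
      push_cast
      rw [contDiffOn_succ_iff_fderiv_of_isOpen hU, contDiffOn_succ_iff_fderiv_of_isOpen hU,
        contDiffOn_succ_iff_deriv_of_isOpen isOpen_Ioi]
      refine ⟨⟨hd1, by simp, ?_⟩, ⟨hd2, by simp, ?_⟩, ⟨hd3, by simp, ?_⟩⟩
      · have h5 : ContDiffOn ℝ n (fun q : ℝ × ℝ =>
            SV v (sh Z) q.1 q.2 • ContinuousLinearMap.fst ℝ ℝ ℝ +
            SV w Z q.1 q.2 • ContinuousLinearMap.snd ℝ ℝ ℝ) (Ioi 0 ×ˢ Ioo x₀ x₁) :=
          (i4.smul contDiffOn_const).add (i2.smul contDiffOn_const)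
        exact h5.congr fun q hq => (hA Z h q hq).fderiv
      · have h5 : ContDiffOn ℝ n (fun q : ℝ × ℝ =>
            SV w (sh Z) q.1 q.2 • ContinuousLinearMap.fst ℝ ℝ ℝ +
            (m q.2 * (SV v (sh Z) q.1 q.2 - SQ κ Z q.1)) • ContinuousLinearMap.snd ℝ ℝ ℝ)
            (Ioi 0 ×ˢ Ioo x₀ x₁) :=
          (i5.smul contDiffOn_const).add ((hmn.mul (i4.sub hqn)).smul contDiffOn_const)
        exact h5.congr fun q hq => (hB Z h q hq).fderiv
      · exact i6.congr fun t ht => (hQ Z h t ht).deriv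
  intro Z hZ
  exact ⟨contDiffOn_infty.2 fun n => (key n Z hZ).1, contDiffOn_infty.2 fun n => (key n Z hZ).2.1,
    contDiffOn_infty.2 fun n => (key n Z hZ).2.2⟩

end Pool.Agent.Q299.CC
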