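import Pool.Agent.Q62.CC.Stm

set_option autoImplicit false

/-!
# Project CC (helper62), job SWP (helper299)
-/

open Set Filter Topology MeasureTheory
open scoped ENNReal ContDiff

namespace Pool.Agent.Q299.CC

open Pool.Agent.Q62.CC
open Pool.Agent.Q61.NC (IsJet Bd mulJ Good sh Sp pd StopsIn)

theorem fact_le (k : ℕ) : (k.factorial : ℝ) / ((2 * k).factorial : ℝ) ≤ 1 / (k.factorial : ℝ) := by
  have h : k.factorial * k.factorial ≤ (2 * k).factorial := by
    have := Nat.factorial_mul_factorial_dvd_factorial_add k k
    rw [← two_mul] at this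
    exact Nat.le_of_dvd (Nat.factorial_pos _) this
  have h' : (k.factorial : ℝ) * k.factorial ≤ ((2 * k).factorial : ℝ) := by exact_mod_cast h
  have h0 : (0 : ℝ) < k.factorial := by positivity
  have h1 : (0 : ℝ) < ((2 * k).factorial : ℝ) := by positivity
  rw [div_le_div_iff₀ h1 h0, one_mul]
  exact h'

theorem t_SWP (hp1 : S_FRJ) : S_SWP := by
  intro ι _ l g A hA hl hs hg v D K hD hK hv t ht
  obtain ⟨-, -, h3⟩ := hp1 ι l g A hA hl hs hg
  obtain ⟨C, hC, hb⟩ := h3 t ht
  set F : ℕ → ι → ℝ := fun k i => g i * (-l i) ^ k * Real.exp (-(l i * t)) * v k with hF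
  have hnorm : ∀ k i, ‖F k i‖ = (|g i| * l i ^ k * Real.exp (-(l i * t))) * |v k| := by
    intro k i
    rw [hF]
    simp only
    rw [Real.norm_eq_abs, abs_mul, abs_mul, abs_mul, abs_pow, abs_neg, abs_of_pos (hl i),
      abs_of_pos (Real.exp_pos _)]
  have hsum : Summable (Function.uncurry F) := by
    rw [← summable_norm_iff]
    rw [summable_prod_of_nonneg fun p => norm_nonneg _]
    constructor
    · intro k
      have : Summable fun i => (|g i| * l i ^ k * Real.exp (-(l i * t))) * |v k| :=
        (hb k t le_rfl).1.mul_right _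
      refine this.congr fun i => ?_
      exact (hnorm k i).symm
    · have hle : ∀ k : ℕ, ∑' i, ‖Function.uncurry F (k, i)‖ ≤
          C * D * ((2 * K / t) ^ k / (k.factorial : ℝ)) := by
        intro k
        have e : ∑' i, ‖Function.uncurry F (k, i)‖ =
            (∑' i, |g i| * l i ^ k * Real.exp (-(l i * t))) * |v k| := by
          rw [← tsum_mul_right]
          exact tsum_congr fun i => hnorm k i
        rw [e]
        have hk := fact_le k
        calc (∑' i, |g i| * l i ^ k * Real.exp (-(l i * t))) * |v k|
            ≤ (C * (2 / t) ^ k * (k.factorial : ℝ)) * (D * K ^ k / ((2 * k).factorial : ℝ)) :=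
              mul_le_mul (hb k t le_rfl).2 (hv k) (abs_nonneg _) (by positivity)
          _ = C * D * (2 * K / t) ^ k * ((k.factorial : ℝ) / ((2 * k).factorial : ℝ)) := by
              rw [div_pow, div_pow, mul_pow]
              ring
          _ ≤ C * D * (2 * K / t) ^ k * (1 / (k.factorial : ℝ)) :=
              mul_le_mul_of_nonneg_left hk (by positivity)
          _ = _ := by ring
      refine Summable.of_nonneg_of_le (fun k => tsum_nonneg fun i => norm_nonneg _) hle ?_
      exact (Real.summable_pow_div_factorial _).mul_left _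
  have hcomm := hsum.tsum_comm
  have e1 : ∀ k : ℕ, fj l g k t * v k = ∑' i, F k i := by
    intro k
    unfold fj
    rw [← tsum_mul_right]
  have e2 : ∀ i, g i * Real.exp (-(l i * t)) * ∑' k : ℕ, v k * (-l i) ^ k = ∑' k : ℕ, F k i := by
    intro i
    rw [← tsum_mul_left]
    refine tsum_congr fun k => ?_
    rw [hF]
    ring
  rw [tsum_congr e1, tsum_congr e2]
  exact hcomm.symm

end Pool.Agent.Q299.CC
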